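import Mathlib

/-!
# Non-adaptive triple queries finding a non-minority ball: `m(n) = 0` for even `n`

For even `n ≥ 4` ignore one ball altogether and ask all triples among the remaining `n - 1` balls.
The answers determine a ball that has the majority colour among these `n - 1` balls, hence a ball
sharing its colour with at least `n / 2` of the `n` balls. The ignored ball has co-degree `0` with
every other ball. So `m(n) = 0` for every even `n ≥ 4`, and `|m(n) - n / 2|` is unbounded.
-/

namespace Pool.Agent.Results.MP_d92cd9_co.EvenZero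

open Finset

/-- A colouring of the `n` balls `Fin n` with two colours. -/
abbrev Colouring (n : ℕ) := Fin n → Bool

/-- `b` is a non-minority ball of `c`: at least `n / 2` balls have the colour of `b`. -/
def NonMinority {n : ℕ} (c : Colouring n) (b : Fin n) : Prop :=
  n ≤ 2 * #{x | c x = c b}

/-- A query set: a set of triples of balls. -/
def IsQuerySet {n : ℕ} (Q : Finset (Finset (Fin n))) : Prop := ∀ T ∈ Q, #T = 3

/-- `a` is a valid answer to the triple `T` under `c`: it lies in `T` and at least one other ball of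
`T` has its colour. -/
def ValidAnswer {n : ℕ} (c : Colouring n) (T : Finset (Fin n)) (a : Fin n) : Prop :=
  a ∈ T ∧ ∃ x ∈ T, x ≠ a ∧ c x = c a

/-- `Q` determines a non-minority ball: some map `f` from answer functions `α : Q → Fin n` to balls
sends every answer function valid for a colouring `c` to a non-minority ball of `c`. -/
def Determines {n : ℕ} (Q : Finset (Finset (Fin n))) : Prop :=
  ∃ f : ((T : {T // T ∈ Q}) → Fin n) → Fin n,
    ∀ (c : Colouring n) (α : (T : {T // T ∈ Q}) → Fin n),
      (∀ T, ValidAnswer c T.1 (α T)) → NonMinority c (f α)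

/-- The co-degree of `x` and `y`: the number of triples of `Q` containing both. -/
def codegree {n : ℕ} (Q : Finset (Finset (Fin n))) (x y : Fin n) : ℕ :=
  #{T ∈ Q | x ∈ T ∧ y ∈ T}

/-- The minimum co-degree `δ₂(Q)` over all pairs of distinct balls. -/
noncomputable def minCodegree {n : ℕ} (Q : Finset (Finset (Fin n))) : ℕ :=
  sInf {d | ∃ x y : Fin n, x ≠ y ∧ d = codegree Q x y}

/-- The minimum co-degrees of the query sets that determine a non-minority ball of `n` balls. -/
def codegreeValues (n : ℕ) : Set ℕ :=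
  {d | ∃ Q : Finset (Finset (Fin n)), IsQuerySet Q ∧ Determines Q ∧ d = minCodegree Q}

/-- `m(n)`: the least minimum co-degree of a query set determining a non-minority ball. -/
noncomputable def m (n : ℕ) : ℕ := sInf (codegreeValues n)

/-- The key fact: if a query set contains all triples of a set `S` of balls with `2 |S| ≥ n - 1 `
(in the form `n ≤ |S| + 1` with `n` even), then it determines a non-minority ball. -/
theorem determines_of_triples {n : ℕ} (hn : Even n) (S : Finset (Fin n)) (hS : n = #S + 1)
    (hne : S.Nonempty)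
    (Q : Finset (Finset (Fin n))) (hQ : ∀ T : Finset (Fin n), T ⊆ S → #T = 3 → T ∈ Q) :
    Determines Q := by
  classical
  obtain ⟨s0, hs0⟩ := hne
  refine ⟨fun α => if h : ∃ b, ∀ c : Colouring n, (∀ T, ValidAnswer c T.1 (α T)) →
    NonMinority c b then h.choose else s0, ?_⟩
  intro c α hα
  by_cases h : ∃ b, ∀ c : Colouring n, (∀ T, ValidAnswer c T.1 (α T)) → NonMinority c b
  · simp only [h, dif_pos]
    exact h.choose_spec c hα
  · exfalso
    push Not at h
    choose C hC hC' using h
    -- the minority class of `b` inside `S`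
    let M : Fin n → Finset (Fin n) := fun b => S.filter (fun x => C b x = C b b)
    have hM : ∀ b, 2 * #(M b) + 2 ≤ n := by
      intro b
      have h1 : #(M b) ≤ #{x | C b x = C b b} := by
        apply Finset.card_le_card
        intro x hx
        simp only [M, mem_filter] at hx
        simp [hx.2]
      have h2 : 2 * #{x | C b x = C b b} < n := by
        have := hC' b
        unfold NonMinority at this
        omega
      obtain ⟨k, hk⟩ := hn
      omega
    -- minimal cover
    have hex : ∃ k, ∃ I : Finset (Fin n), S ⊆ I.biUnion M ∧ #I = k := by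
      refine ⟨_, S, ?_, rfl⟩
      intro x hx
      simp only [mem_biUnion]
      exact ⟨x, hx, by simp [M, hx]⟩
    obtain ⟨I, hI, hIc⟩ := Nat.find_spec hex
    have hmin : ∀ J : Finset (Fin n), S ⊆ J.biUnion M → #I ≤ #J := by
      intro J hJ
      rw [hIc]
      exact Nat.find_min' hex ⟨J, hJ, rfl⟩
    have hI3 : 3 ≤ #I := by
      by_contra hlt
      push Not at hlt
      have h1 : #S ≤ ∑ b ∈ I, #(M b) := (Finset.card_le_card hI).trans Finset.card_biUnion_le
      have h2 : 2 * ∑ b ∈ I, #(M b) + 2 * #I ≤ #I * n := by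
        rw [Finset.mul_sum]
        calc ∑ b ∈ I, 2 * #(M b) + 2 * #I = ∑ b ∈ I, (2 * #(M b) + 2) := by
              rw [Finset.sum_add_distrib]; simp [mul_comm]
          _ ≤ ∑ b ∈ I, n := Finset.sum_le_sum (fun b _ => hM b)
          _ = #I * n := by simp
      have h3 : 1 ≤ #S := Finset.card_pos.mpr ⟨s0, hs0⟩
      interval_cases hh : #I <;> omega
    -- private elements
    have hpriv : ∀ b ∈ I, ∃ x ∈ S, x ∈ M b ∧ ∀ b' ∈ I, b' ≠ b → x ∉ M b' := by
      intro b hb
      by_contra hcon
      push Not at hcon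
      have : S ⊆ (I.erase b).biUnion M := by
        intro x hx
        obtain ⟨b', hb', hxb'⟩ := mem_biUnion.mp (hI hx)
        rw [mem_biUnion]
        by_cases hbb : b' = b
        · subst hbb
          obtain ⟨b'', h1, h2, h3⟩ := hcon x hx hxb'
          exact ⟨b'', mem_erase.mpr ⟨h2, h1⟩, h3⟩
        · exact ⟨b', mem_erase.mpr ⟨hbb, hb'⟩, hxb'⟩
      have h1 := hmin _ this
      have h2 := Finset.card_erase_lt_of_mem hb
      omega
    obtain ⟨b1, b2, b3, hb1, hb2, hb3, h12, h13, h23⟩ := Finset.two_lt_card_iff.mp (by omega : 2 < #I)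
    obtain ⟨x1, hx1S, hx1, hx1'⟩ := hpriv b1 hb1
    obtain ⟨x2, hx2S, hx2, hx2'⟩ := hpriv b2 hb2
    obtain ⟨x3, hx3S, hx3, hx3'⟩ := hpriv b3 hb3
    have e12 : x1 ≠ x2 := by rintro rfl; exact hx1' b2 hb2 h12.symm hx2
    have e13 : x1 ≠ x3 := by rintro rfl; exact hx1' b3 hb3 h13.symm hx3
    have e23 : x2 ≠ x3 := by rintro rfl; exact hx2' b3 hb3 h23.symm hx3
    let T : Finset (Fin n) := {x1, x2, x3}
    have hT3 : #T = 3 := Finset.card_eq_three.mpr ⟨x1, x2, x3, e12, e13, e23, rfl⟩
    have hTS : T ⊆ S := by
      intro x hx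
      simp only [T, mem_insert, mem_singleton] at hx
      rcases hx with rfl | rfl | rfl <;> assumption
    have hTQ : T ∈ Q := hQ T hTS hT3
    -- no member of `T` is a valid answer for all three colourings
    have key : ∀ (b x : Fin n), x ∈ M b → (∀ y ∈ T, y ≠ x → y ∉ M b) → α ⟨T, hTQ⟩ ≠ x := by
      intro b x hx hy heq
      obtain ⟨h1, y, hyT, hyx, hc⟩ := hC b ⟨T, hTQ⟩
      rw [heq] at hyx hc
      apply hy y hyT hyx
      simp only [M, mem_filter] at hx ⊢
      exact ⟨hTS hyT, hc.trans hx.2⟩
    have hmem : α ⟨T, hTQ⟩ ∈ T := (hα ⟨T, hTQ⟩).1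
    have hmem' : α ⟨T, hTQ⟩ = x1 ∨ α ⟨T, hTQ⟩ = x2 ∨ α ⟨T, hTQ⟩ = x3 := by
      simpa [T] using hmem
    rcases hmem' with h | h | h
    · refine key b1 x1 hx1 ?_ h
      intro y hy hne
      simp only [T, mem_insert, mem_singleton] at hy
      rcases hy with rfl | rfl | rfl
      · exact absurd rfl hne
      · exact hx2' b1 hb1 h12
      · exact hx3' b1 hb1 h13
    · refine key b2 x2 hx2 ?_ h
      intro y hy hne
      simp only [T, mem_insert, mem_singleton] at hy
      rcases hy with rfl | rfl | rfl
      · exact hx1' b2 hb2 h12.symm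
      · exact absurd rfl hne
      · exact hx3' b2 hb2 h23
    · refine key b3 x3 hx3 ?_ h
      intro y hy hne
      simp only [T, mem_insert, mem_singleton] at hy
      rcases hy with rfl | rfl | rfl
      · exact hx1' b3 hb3 h13.symm
      · exact hx2' b3 hb3 h23.symm
      · exact absurd rfl hne

theorem isLeast_zero (n : ℕ) (hn4 : 4 ≤ n) (hn : Even n) : IsLeast (codegreeValues n) 0 := by
  classical
  refine ⟨?_, fun _ _ => Nat.zero_le _⟩
  obtain ⟨k, rfl⟩ : ∃ k, n = k + 1 := ⟨n - 1, by omega⟩
  let S : Finset (Fin (k + 1)) := univ.erase (Fin.last k)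
  let Q : Finset (Finset (Fin (k + 1))) := univ.filter (fun T => #T = 3 ∧ T ⊆ S)
  refine ⟨Q, ?_, ?_, ?_⟩
  · intro T hT
    simp only [Q, mem_filter] at hT
    exact hT.2.1
  · refine determines_of_triples hn S ?_ ?_ Q ?_
    · simp [S, Finset.card_erase_of_mem]
    · refine ⟨0, ?_⟩
      simp only [S, mem_erase, mem_univ, and_true]
      intro h
      have := congrArg Fin.val h
      simp at this
      omega
    · intro T h1 h2
      simp only [Q, mem_filter, mem_univ, true_and]
      exact ⟨h2, h1⟩
  · symm
    apply Nat.sInf_eq_zero.mpr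
    left
    refine ⟨0, Fin.last k, ?_, ?_⟩
    · intro h
      have := congrArg Fin.val h
      simp at this
      omega
    · symm
      unfold codegree
      rw [Finset.card_eq_zero, Finset.filter_eq_empty_iff]
      rintro T hT ⟨-, h⟩
      simp only [Q, mem_filter] at hT
      have := hT.2.2 h
      simp [S] at this

/-- **MP_d92cd9, Q1 is false.** For every even `n ≥ 4` the least minimum co-degree `m(n)` of a
non-adaptive set of triple queries determining a non-minority ball is `0`; hence there is no
constant `C` with `|m(n) - n / 2| ≤ C` for all `n ≥ 3`. -/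
theorem result :
    (∀ n : ℕ, 4 ≤ n → Even n → IsLeast (codegreeValues n) 0 ∧ m n = 0) ∧
      ¬ ∃ C : ℝ, ∀ n : ℕ, 3 ≤ n → |(m n : ℝ) - n / 2| ≤ C := by
  have h : ∀ n : ℕ, 4 ≤ n → Even n → IsLeast (codegreeValues n) 0 ∧ m n = 0 := by
    intro n h4 he
    have := isLeast_zero n h4 he
    exact ⟨this, this.csInf_eq⟩
  refine ⟨h, ?_⟩
  rintro ⟨C, hC⟩
  obtain ⟨N, hN⟩ := exists_nat_gt C
  have h1 := hC (2 * (N + 2)) (by omega)
  rw [(h (2 * (N + 2)) (by omega) ⟨N + 2, by ring⟩).2] at h1
  push_cast at h1
  rw [show (0 : ℝ) - 2 * ((N : ℝ) + 2) / 2 = -((N : ℝ) + 2) by ring, abs_neg,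
    abs_of_nonneg (by positivity)] at h1
  linarith

end Pool.Agent.Results.MP_d92cd9_co.EvenZero
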